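import Mathlib
import Pool.Agent.R160.WC3

/-!
Non-singular words with constants of bounded length are asymptotically equidistributed on the
symmetric groups, after symmetrisation, in the Kantorovich-Rubinstein distance of the normalised
Hamming metric. No condition is imposed on the constants, and the words need not be reduced.
-/

namespace Pool.Agent.Results.MP_492aa6_al.NonsingularWords

open Equiv Filter Topology

/-- A word with constants in `G` over the variables `x_0, …, x_{r-1}`, written as
`c_0 x_{i_1}^{±1} c_1 x_{i_2}^{±1} c_2 ⋯ x_{i_l}^{±1} c_l`. The entry `(i, s, c)` of the list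
`letters` stands for `x_i c` if `s` is true and for `x_i⁻¹ c` if `s` is false. -/
structure ConstWord (G : Type) (r : ℕ) where
  /-- the constant `c_0` -/
  c0 : G
  /-- the variables with their signs, each followed by its constant -/
  letters : List (Fin r × Bool × G)

/-- The length of a word: its number of variables. -/
def ConstWord.length {G : Type} {r : ℕ} (w : ConstWord G r) : ℕ := w.letters.length

/-- The value of a word when `x_i` is replaced by `x i`. -/
def ConstWord.eval {G : Type} [Group G] {r : ℕ} (w : ConstWord G r) (x : Fin r → G) : G :=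
  w.c0 * (w.letters.map fun a => (if a.2.1 then x a.1 else (x a.1)⁻¹) * a.2.2).prod

/-- The image of a word in the free group, all constants being deleted. -/
def ConstWord.freePart {G : Type} {r : ℕ} (w : ConstWord G r) : FreeGroup (Fin r) :=
  (w.letters.map fun a => if a.2.1 then FreeGroup.of a.1 else (FreeGroup.of a.1)⁻¹).prod

/-- A word is non-singular if its image in the free group is not trivial. -/
def ConstWord.NonSingular {G : Type} {r : ℕ} (w : ConstWord G r) : Prop := w.freePart ≠ 1

/-- The mass function of the push-forward of the uniform measure on `S_n ^ r` under the word map. -/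
noncomputable def wordMeasure {n r : ℕ} (w : ConstWord (Perm (Fin n)) r) (σ : Perm (Fin n)) : ℝ :=
  (Fintype.card {x : Fin r → Perm (Fin n) // w.eval x = σ} : ℝ) /
    Fintype.card (Fin r → Perm (Fin n))

/-- The symmetrisation (average over all conjugates) of a mass function on `S_n`. -/
noncomputable def symmetrize {n : ℕ} (μ : Perm (Fin n) → ℝ) (σ : Perm (Fin n)) : ℝ :=
  (∑ τ : Perm (Fin n), μ (τ⁻¹ * σ * τ)) / (n.factorial : ℝ)

/-- The uniform probability on `S_n`. -/
noncomputable def uniform (n : ℕ) (_ : Perm (Fin n)) : ℝ := 1 / (n.factorial : ℝ)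

/-- The normalised Hamming metric on `S_n`. -/
noncomputable def hamming {n : ℕ} (σ τ : Perm (Fin n)) : ℝ :=
  (Fintype.card {i : Fin n // σ i ≠ τ i} : ℝ) / n

/-- `γ` is a coupling of `μ` and `ν`: a nonnegative function with marginals `μ` and `ν`. -/
def IsCoupling {n : ℕ} (γ : Perm (Fin n) → Perm (Fin n) → ℝ) (μ ν : Perm (Fin n) → ℝ) : Prop :=
  (∀ σ τ, 0 ≤ γ σ τ) ∧ (∀ σ, ∑ τ, γ σ τ = μ σ) ∧ (∀ τ, ∑ σ, γ σ τ = ν τ)

/-- The expected Hamming distance of a coupling. -/
noncomputable def cost {n : ℕ} (γ : Perm (Fin n) → Perm (Fin n) → ℝ) : ℝ :=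
  ∑ σ, ∑ τ, γ σ τ * hamming σ τ

/-- The Kantorovich-Rubinstein distance: the infimum of the costs of all couplings. -/
noncomputable def kantorovich {n : ℕ} (μ ν : Perm (Fin n) → ℝ) : ℝ :=
  sInf {t | ∃ γ, IsCoupling γ μ ν ∧ t = cost γ}

open Pool.Agent.R160.WC

/-- The list of steps of a word. -/
def steps {n r : ℕ} (w : ConstWord (Perm (Fin n)) r) : List (Step (Fin r) (Fin n)) :=
  Sum.inl w.c0 :: w.letters.flatMap fun a => [Sum.inr (a.1, a.2.1), Sum.inl a.2.2]

lemma steps_length {n r : ℕ} (w : ConstWord (Perm (Fin n)) r) :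
    (steps w).length = 2 * w.length + 1 := by
  unfold steps ConstWord.length
  rw [List.length_cons]
  congr 1
  generalize w.letters = l
  induction l with
  | nil => rfl
  | cons a l ih =>
    rw [List.flatMap_cons, List.length_append, ih, List.length_cons]
    simp only [List.length_cons, List.length_nil]
    ring

lemma val_steps {n r : ℕ} (w : ConstWord (Perm (Fin n)) r) (x : Fin r → Perm (Fin n)) :
    val x (steps w) = w.eval x := by
  unfold steps ConstWord.eval val
  rw [List.map_cons, List.prod_cons]
  congr 1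
  generalize w.letters = l
  induction l with
  | nil => rfl
  | cons a l ih =>
    rw [List.flatMap_cons, List.map_append, List.prod_append, ih, List.map_cons, List.prod_cons]
    congr 1
    obtain ⟨i, s, c⟩ := a
    cases s <;> simp [act]

lemma frl_steps {n r : ℕ} (w : ConstWord (Perm (Fin n)) r) :
    frl (steps w) = w.freePart := by
  unfold steps ConstWord.freePart frl
  rw [List.map_cons, List.prod_cons]
  simp only [fr, one_mul]
  generalize w.letters = l
  induction l with
  | nil => rfl
  | cons a l ih =>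
    rw [List.flatMap_cons, List.map_append, List.prod_append, ih, List.map_cons, List.prod_cons]
    congr 1
    obtain ⟨i, s, c⟩ := a
    cases s <;> simp [fr]

section pow

variable {ι α : Type}

lemma val_pow (x : ι → Perm α) (S : List (Step ι α)) (k : ℕ) :
    val x (List.replicate k S).flatten = (val x S) ^ k := by
  induction k with
  | zero => rfl
  | succ k ih =>
    rw [List.replicate_succ, List.flatten_cons, pow_succ', ← ih]
    simp [val]

lemma frl_pow (S : List (Step ι α)) (k : ℕ) :
    frl (List.replicate k S).flatten = (frl S) ^ k := by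
  induction k with
  | zero => rfl
  | succ k ih =>
    rw [List.replicate_succ, List.flatten_cons, pow_succ', ← ih]
    simp [frl]

end pow

/-- The constant of the fixed point estimate. -/
def cst (s : ℕ) : ℕ := 2 * s ^ 2 * (2 * s + 1) ^ s

lemma cst_mono {s t : ℕ} (h : s ≤ t) : cst s ≤ cst t := by
  unfold cst
  have h1 : s ^ 2 ≤ t ^ 2 := Nat.pow_le_pow_left h 2
  have h2 : (2 * s + 1) ^ s ≤ (2 * t + 1) ^ t :=
    (Nat.pow_le_pow_left (by omega) s).trans (Nat.pow_le_pow_right (by omega) h)
  exact Nat.mul_le_mul (Nat.mul_le_mul_left 2 h1) h2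

/-- The average number of cycles of the value of a non-singular mixed word. -/
lemma sum_cyc_le {ι : Type} [Fintype ι] [DecidableEq ι] {n : ℕ} (S : List (Step ι (Fin n)))
    (hS : frl S ≠ 1) (m l : ℕ) (hl : S.length ≤ l) (hn : 2 * (m * l) ≤ n) :
    m * ∑ x : ι → Perm (Fin n), cyc (val x S) ≤
      (n + m * (m * cst (m * l))) * Fintype.card (ι → Perm (Fin n)) := by
  have hfix : ∀ k ∈ Finset.Icc 1 m, ∑ x : ι → Perm (Fin n), nfix (val x S ^ k) ≤
      cst (m * l) * Fintype.card (ι → Perm (Fin n)) := by
    intro k hk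
    rw [Finset.mem_Icc] at hk
    have hlen : (List.replicate k S).flatten.length = k * S.length := by simp
    have hle : k * S.length ≤ m * l := Nat.mul_le_mul hk.2 hl
    have hfr : frl (List.replicate k S).flatten ≠ 1 := by
      rw [frl_pow]
      intro h
      exact hS ((pow_eq_one_iff_left (by omega)).1 h)
    have := sum_nfix_le (List.replicate k S).flatten hfr (by
      rw [hlen, Fintype.card_fin]; omega)
    simp_rw [val_pow] at this
    refine this.trans ?_
    rw [hlen]
    exact Nat.mul_le_mul_right _ (cst_mono hle)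
  calc m * ∑ x : ι → Perm (Fin n), cyc (val x S)
      = ∑ x : ι → Perm (Fin n), m * cyc (val x S) := by rw [Finset.mul_sum]
    _ ≤ ∑ x : ι → Perm (Fin n), (n + m * ∑ k ∈ Finset.Icc 1 m, nfix (val x S ^ k)) := by
        apply Finset.sum_le_sum
        intro x _
        have := mul_cyc_le (val x S) m
        rwa [Fintype.card_fin] at this
    _ = Fintype.card (ι → Perm (Fin n)) * n +
        m * ∑ k ∈ Finset.Icc 1 m, ∑ x : ι → Perm (Fin n), nfix (val x S ^ k) := by
        rw [Finset.sum_add_distrib, Finset.sum_const, smul_eq_mul, Finset.card_univ,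
          ← Finset.mul_sum, Finset.sum_comm]
    _ ≤ Fintype.card (ι → Perm (Fin n)) * n +
        m * ∑ _k ∈ Finset.Icc 1 m, cst (m * l) * Fintype.card (ι → Perm (Fin n)) := by
        gcongr with k hk
        exact hfix k hk
    _ = _ := by
        rw [Finset.sum_const, Nat.card_Icc, smul_eq_mul]
        simp only [Nat.add_sub_cancel]
        ring

section coupling

variable {n : ℕ}

/-- The joint mass function of two random permutations on a finite uniform space. -/
noncomputable def joint {Ω : Type} [Fintype Ω] (f g : Ω → Perm (Fin n)) (σ τ : Perm (Fin n)) : ℝ :=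
  (∑ ω, if f ω = σ ∧ g ω = τ then (1 : ℝ) else 0) / Fintype.card Ω

lemma joint_coupling {Ω : Type} [Fintype Ω] (f g : Ω → Perm (Fin n))
    (μ ν : Perm (Fin n) → ℝ)
    (hμ : ∀ σ, (∑ ω, if f ω = σ then (1 : ℝ) else 0) / Fintype.card Ω = μ σ)
    (hν : ∀ σ, (∑ ω, if g ω = σ then (1 : ℝ) else 0) / Fintype.card Ω = ν σ) :
    IsCoupling (joint f g) μ ν := by
  refine ⟨?_, ?_, ?_⟩
  · intro σ τ
    unfold joint
    apply div_nonneg _ (Nat.cast_nonneg _)
    apply Finset.sum_nonneg
    intro ω _
    split_ifs <;> norm_num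
  · intro σ
    unfold joint
    rw [← Finset.sum_div, Finset.sum_comm, ← hμ σ]
    congr 1
    apply Finset.sum_congr rfl
    intro ω _
    by_cases h : f ω = σ
    · simp [h]
    · simp [h]
  · intro τ
    unfold joint
    rw [← Finset.sum_div, Finset.sum_comm, ← hν τ]
    congr 1
    apply Finset.sum_congr rfl
    intro ω _
    by_cases h : g ω = τ
    · simp [h]
    · simp [h]

lemma joint_cost {Ω : Type} [Fintype Ω] (f g : Ω → Perm (Fin n)) :
    cost (joint f g) = (∑ ω, hamming (f ω) (g ω)) / Fintype.card Ω := by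
  unfold cost joint
  simp_rw [div_mul_eq_mul_div, ← Finset.sum_div]
  congr 1
  simp_rw [Finset.sum_mul]
  have h1 : ∀ σ : Perm (Fin n), ∑ τ, ∑ ω, (if f ω = σ ∧ g ω = τ then (1 : ℝ) else 0) * hamming σ τ =
      ∑ ω, if f ω = σ then hamming (f ω) (g ω) else 0 := by
    intro σ
    rw [Finset.sum_comm]
    apply Finset.sum_congr rfl
    intro ω _
    by_cases h : f ω = σ
    · simp [h]
    · simp [h]
  simp_rw [h1]
  rw [Finset.sum_comm]
  simp

lemma hamming_conj (κ σ τ : Perm (Fin n)) :
    hamming (κ * σ * κ⁻¹) (κ * τ * κ⁻¹) = hamming σ τ := by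
  unfold hamming
  congr 2
  refine Fintype.card_congr ⟨fun i => ⟨κ⁻¹ i.1, ?_⟩, fun i => ⟨κ i.1, ?_⟩, ?_, ?_⟩
  · have := i.2
    intro h
    apply this
    simp only [Equiv.Perm.mul_apply]
    rw [h]
  · have := i.2
    simp only [Equiv.Perm.mul_apply]
    intro h
    apply this
    have := κ.injective h
    simpa using this
  · intro i; ext; simp
  · intro i; ext; simp

lemma hamming_nonneg (σ τ : Perm (Fin n)) : 0 ≤ hamming σ τ := by
  unfold hamming
  exact div_nonneg (Nat.cast_nonneg _) (Nat.cast_nonneg _)

lemma exists_close (σ π : Perm (Fin n)) : ∃ κ : Perm (Fin n),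
    hamming σ (κ * π * κ⁻¹) ≤ (2 * (cyc σ : ℝ) + 2 * (cyc π : ℝ)) / n := by
  obtain ⟨κ, hκ⟩ := exists_conj_close σ π
  refine ⟨κ, ?_⟩
  unfold hamming
  gcongr
  rw [Fintype.card_subtype]
  exact_mod_cast hκ

/-- The coupling of the symmetrised word measure with the uniform measure. -/
lemma exists_coupling {r : ℕ} (w : ConstWord (Perm (Fin n)) r) (a b : ℝ)
    (ha : ∑ x : Fin r → Perm (Fin n), (cyc (w.eval x) : ℝ) ≤
      a * Fintype.card (Fin r → Perm (Fin n)))
    (hb : ∑ π : Perm (Fin n), (cyc π : ℝ) ≤ b * n.factorial) :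
    ∃ γ, IsCoupling γ (symmetrize (wordMeasure w)) (uniform n) ∧
      cost γ ≤ (2 * a + 2 * b) / n := by
  classical
  choose κ hκ using fun q : Perm (Fin n) × Perm (Fin n) => exists_close q.1 q.2
  set X := Fintype.card (Fin r → Perm (Fin n)) with hX
  have hXpos : (0 : ℝ) < X := by
    rw [hX]; exact_mod_cast Fintype.card_pos
  have hfpos : (0 : ℝ) < n.factorial := by exact_mod_cast n.factorial_pos
  have hcardP : Fintype.card (Perm (Fin n)) = n.factorial := by
    rw [Fintype.card_perm, Fintype.card_fin]
  let f : (Perm (Fin n) × (Fin r → Perm (Fin n)) × Perm (Fin n)) → Perm (Fin n) :=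
    fun ω => ω.1 * w.eval ω.2.1 * ω.1⁻¹
  let g : (Perm (Fin n) × (Fin r → Perm (Fin n)) × Perm (Fin n)) → Perm (Fin n) :=
    fun ω => ω.1 * (κ (w.eval ω.2.1, ω.2.2) * ω.2.2 * (κ (w.eval ω.2.1, ω.2.2))⁻¹) * ω.1⁻¹
  have hΩ : (Fintype.card (Perm (Fin n) × (Fin r → Perm (Fin n)) × Perm (Fin n)) : ℝ) =
      n.factorial * (X * n.factorial) := by
    rw [Fintype.card_prod, Fintype.card_prod, hcardP]
    push_cast
    rfl
  refine ⟨joint f g, ?_, ?_⟩
  · apply joint_coupling
    · intro σ
      rw [hΩ, Fintype.sum_prod_type]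
      simp_rw [Fintype.sum_prod_type]
      unfold symmetrize wordMeasure
      rw [← Finset.sum_div]
      have h1 : ∀ τ : Perm (Fin n), (∑ x : Fin r → Perm (Fin n), ∑ π : Perm (Fin n),
          if f (τ, x, π) = σ then (1 : ℝ) else 0) =
          (Fintype.card {x : Fin r → Perm (Fin n) // w.eval x = τ⁻¹ * σ * τ} : ℝ) *
            n.factorial := by
        intro τ
        have h2 : ∀ x : Fin r → Perm (Fin n), (∑ π : Perm (Fin n),
            if f (τ, x, π) = σ then (1 : ℝ) else 0) =
            (if w.eval x = τ⁻¹ * σ * τ then (1 : ℝ) else 0) * n.factorial := by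
          intro x
          have h3 : (τ * w.eval x * τ⁻¹ = σ) ↔ (w.eval x = τ⁻¹ * σ * τ) := by
            constructor
            · intro h; rw [← h]; group
            · intro h; rw [h]; group
          simp only [f, h3]
          rw [Finset.sum_const, Finset.card_univ, hcardP, nsmul_eq_mul, mul_comm]
        simp_rw [h2]
        rw [← Finset.sum_mul, Fintype.card_subtype, Finset.card_filter]
        push_cast
        rfl
      simp_rw [h1]
      rw [← Finset.sum_mul]
      field_simp
      rw [hX]
    · intro σ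
      rw [hΩ, Fintype.sum_prod_type]
      simp_rw [Fintype.sum_prod_type]
      have h1 : (∑ τ : Perm (Fin n), ∑ x : Fin r → Perm (Fin n), ∑ π : Perm (Fin n),
          if g (τ, x, π) = σ then (1 : ℝ) else 0) = X * n.factorial := by
        rw [Finset.sum_comm]
        have h2 : ∀ x : Fin r → Perm (Fin n), (∑ τ : Perm (Fin n), ∑ π : Perm (Fin n),
            if g (τ, x, π) = σ then (1 : ℝ) else 0) = n.factorial := by
          intro x
          rw [Finset.sum_comm]
          have h3 : ∀ π : Perm (Fin n), (∑ τ : Perm (Fin n),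
              if g (τ, x, π) = σ then (1 : ℝ) else 0) =
              ∑ τ : Perm (Fin n), if τ * π * τ⁻¹ = σ then (1 : ℝ) else 0 := by
            intro π
            rw [← Equiv.sum_comp (Equiv.mulRight (κ (w.eval x, π)))
              (fun τ : Perm (Fin n) => if τ * π * τ⁻¹ = σ then (1 : ℝ) else 0)]
            apply Finset.sum_congr rfl
            intro τ _
            simp only [g, Equiv.coe_mulRight, mul_inv_rev, mul_assoc]
          simp_rw [h3]
          rw [Finset.sum_comm]
          have h4 : ∀ τ : Perm (Fin n), (∑ π : Perm (Fin n),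
              if τ * π * τ⁻¹ = σ then (1 : ℝ) else 0) = 1 := by
            intro τ
            have h5 : ∀ π : Perm (Fin n), (τ * π * τ⁻¹ = σ) ↔ (π = τ⁻¹ * σ * τ) := by
              intro π
              constructor
              · intro h; rw [← h]; group
              · intro h; rw [h]; group
            simp_rw [h5]
            simp
          simp_rw [h4]
          rw [Finset.sum_const, Finset.card_univ, hcardP, nsmul_eq_mul, mul_one]
        simp_rw [h2]
        rw [Finset.sum_const, Finset.card_univ, nsmul_eq_mul]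
      rw [h1]
      unfold uniform
      field_simp
  · rw [joint_cost, hΩ, Fintype.sum_prod_type]
    simp_rw [Fintype.sum_prod_type]
    have h1 : ∀ τ : Perm (Fin n), (∑ x : Fin r → Perm (Fin n), ∑ π : Perm (Fin n),
        hamming (f (τ, x, π)) (g (τ, x, π))) ≤
        ((2 * a + 2 * b) / n) * (X * n.factorial) := by
      intro τ
      calc (∑ x : Fin r → Perm (Fin n), ∑ π : Perm (Fin n),
            hamming (f (τ, x, π)) (g (τ, x, π)))
          ≤ ∑ x : Fin r → Perm (Fin n), ∑ π : Perm (Fin n),
            (2 * (cyc (w.eval x) : ℝ) + 2 * (cyc π : ℝ)) / n := by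
            apply Finset.sum_le_sum
            intro x _
            apply Finset.sum_le_sum
            intro π _
            simp only [f, g]
            rw [hamming_conj]
            exact hκ (w.eval x, π)
        _ = (2 * (∑ x : Fin r → Perm (Fin n), (cyc (w.eval x) : ℝ)) * n.factorial +
              2 * (∑ π : Perm (Fin n), (cyc π : ℝ)) * X) / n := by
            simp_rw [← Finset.sum_div]
            congr 1
            simp_rw [Finset.sum_add_distrib, Finset.sum_const, Finset.card_univ, hcardP,
              nsmul_eq_mul, ← Finset.mul_sum]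
            ring
        _ ≤ (2 * (a * X) * n.factorial + 2 * (b * n.factorial) * X) / n := by
            gcongr
        _ = _ := by ring
    rw [div_le_iff₀ (by positivity)]
    calc _ ≤ ∑ τ : Perm (Fin n), ((2 * a + 2 * b) / n) * (X * n.factorial) :=
          Finset.sum_le_sum fun τ _ => h1 τ
      _ = _ := by
          rw [Finset.sum_const, Finset.card_univ, hcardP, nsmul_eq_mul]
          ring

end coupling

/-- The average number of cycles of a uniform random permutation. -/
lemma sum_cyc_uniform {n : ℕ} (m l : ℕ) (hl : 1 ≤ l) (hn : 2 * (m * l) ≤ n) :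
    m * ∑ π : Perm (Fin n), cyc π ≤ (n + m * (m * cst (m * l))) * n.factorial := by
  have h := sum_cyc_le (ι := Fin 1) (n := n) [Sum.inr (0, true)] (by
    unfold frl
    simp only [List.map_cons, List.map_nil, List.prod_cons, List.prod_nil, mul_one, fr]
    exact FreeGroup.of_ne_one 0) m l (by simpa using hl) hn
  have hval : ∀ x : Fin 1 → Perm (Fin n), val x [Sum.inr (0, true)] = x 0 := by
    intro x
    simp [val, act]
  simp_rw [hval] at h
  have h1 : ∑ x : Fin 1 → Perm (Fin n), cyc (x 0) = ∑ π : Perm (Fin n), cyc π := by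
    rw [← Equiv.sum_comp (Equiv.funUnique (Fin 1) (Perm (Fin n)))]
    rfl
  have h2 : Fintype.card (Fin 1 → Perm (Fin n)) = n.factorial := by
    rw [Fintype.card_congr (Equiv.funUnique (Fin 1) (Perm (Fin n))), Fintype.card_perm,
      Fintype.card_fin]
  rw [h1, h2] at h
  exact h

/-- The uniform form. -/
theorem uniform_form (r L : ℕ) (ε : ℝ) (hε : 0 < ε) : ∃ N : ℕ, ∀ n ≥ N,
    ∀ w : ConstWord (Perm (Fin n)) r, w.NonSingular → w.length ≤ L →
      ∃ γ, IsCoupling γ (symmetrize (wordMeasure w)) (uniform n) ∧ cost γ < ε := by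
  obtain ⟨m, hm⟩ := exists_nat_gt (8 / ε)
  have hmpos : (0 : ℝ) < m := lt_trans (by positivity) hm
  have hm0 : 0 < m := by exact_mod_cast hmpos
  set l := 2 * L + 1 with hl
  set B := m * cst (m * l) with hB
  obtain ⟨N1, hN1⟩ := exists_nat_gt (8 * (B : ℝ) / ε)
  refine ⟨max (max N1 (2 * (m * l))) 1, ?_⟩
  intro n hn w hw hwl
  have hn1 : N1 ≤ n := le_trans (le_trans (le_max_left _ _) (le_max_left _ _)) hn
  have hn2 : 2 * (m * l) ≤ n := le_trans (le_trans (le_max_right _ _) (le_max_left _ _)) hn
  have hn3 : 1 ≤ n := le_trans (le_max_right _ _) hn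
  have hnpos : (0 : ℝ) < n := by exact_mod_cast hn3
  have hA := sum_cyc_le (steps w) (by rw [frl_steps]; exact hw) m l
    (by rw [steps_length]; omega) hn2
  simp_rw [val_steps] at hA
  have hU := sum_cyc_uniform (n := n) m l (by omega) hn2
  have hA' : ∑ x : Fin r → Perm (Fin n), (cyc (w.eval x) : ℝ) ≤
      ((n : ℝ) / m + B) * Fintype.card (Fin r → Perm (Fin n)) := by
    have h1 : (m : ℝ) * ∑ x : Fin r → Perm (Fin n), (cyc (w.eval x) : ℝ) ≤
        ((n : ℝ) + m * B) * Fintype.card (Fin r → Perm (Fin n)) := by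
      exact_mod_cast hA
    have h2 : ((n : ℝ) / m + B) * Fintype.card (Fin r → Perm (Fin n)) =
        (((n : ℝ) + m * B) * Fintype.card (Fin r → Perm (Fin n))) / m := by
      field_simp
    rw [h2, le_div_iff₀ hmpos, mul_comm]
    exact h1
  have hU' : ∑ π : Perm (Fin n), (cyc π : ℝ) ≤ ((n : ℝ) / m + B) * n.factorial := by
    have h1 : (m : ℝ) * ∑ π : Perm (Fin n), (cyc π : ℝ) ≤
        ((n : ℝ) + m * B) * n.factorial := by
      exact_mod_cast hU
    have h2 : ((n : ℝ) / m + B) * n.factorial = (((n : ℝ) + m * B) * n.factorial) / m := by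
      field_simp
    rw [h2, le_div_iff₀ hmpos, mul_comm]
    exact h1
  obtain ⟨γ, hγ, hcost⟩ := exists_coupling w _ _ hA' hU'
  refine ⟨γ, hγ, lt_of_le_of_lt hcost ?_⟩
  have h3 : (2 * ((n : ℝ) / m + B) + 2 * ((n : ℝ) / m + B)) / n = 4 / m + 4 * B / n := by
    field_simp
    ring
  rw [h3]
  have h4 : 4 / (m : ℝ) < ε / 2 := by
    rw [div_lt_iff₀ hmpos]
    rw [div_lt_iff₀ hε] at hm
    linarith
  have h5 : 4 * (B : ℝ) / n < ε / 2 := by
    rw [div_lt_iff₀ hnpos]
    rw [div_lt_iff₀ hε] at hN1
    have : (N1 : ℝ) ≤ n := by exact_mod_cast hn1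
    nlinarith
  linarith

/-- For every number `r` of variables and every sequence of non-singular words with constants
`w_n` over `S_n` of bounded length, the Kantorovich-Rubinstein distance between the symmetrised
word measure and the uniform measure on `S_n` tends to `0`. Moreover this is uniform: for every
`ε > 0`, if `n` is large in terms of `r`, the length bound `L` and `ε`, every non-singular word of
length at most `L` admits a coupling of expected Hamming distance less than `ε`. -/
theorem result :
    (∀ (r : ℕ) (w : (n : ℕ) → ConstWord (Perm (Fin n)) r),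
      (∀ n, (w n).NonSingular) → (∃ L : ℕ, ∀ n, (w n).length ≤ L) →
      Tendsto (fun n => kantorovich (symmetrize (wordMeasure (w n))) (uniform n)) atTop (𝓝 0)) ∧
    (∀ (r L : ℕ) (ε : ℝ), 0 < ε → ∃ N : ℕ, ∀ n ≥ N,
      ∀ w : ConstWord (Perm (Fin n)) r, w.NonSingular → w.length ≤ L →
        ∃ γ, IsCoupling γ (symmetrize (wordMeasure w)) (uniform n) ∧ cost γ < ε) := by
  refine ⟨?_, uniform_form⟩
  rintro r w hw ⟨L, hL⟩
  rw [Metric.tendsto_atTop]
  intro ε hε
  obtain ⟨N, hN⟩ := uniform_form r L ε hε
  refine ⟨N, ?_⟩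
  intro n hn
  obtain ⟨γ, hγ, hc⟩ := hN n hn (w n) (hw n) (hL n)
  have hbdd : BddBelow {t | ∃ γ, IsCoupling γ (symmetrize (wordMeasure (w n))) (uniform n) ∧
      t = cost γ} := by
    refine ⟨0, ?_⟩
    rintro t ⟨γ', hγ', rfl⟩
    unfold cost
    exact Finset.sum_nonneg fun σ _ => Finset.sum_nonneg fun τ _ =>
      mul_nonneg (hγ'.1 σ τ) (hamming_nonneg σ τ)
  have hle : kantorovich (symmetrize (wordMeasure (w n))) (uniform n) < ε :=
    lt_of_le_of_lt (csInf_le hbdd ⟨γ, hγ, rfl⟩) hc
  have hge : 0 ≤ kantorovich (symmetrize (wordMeasure (w n))) (uniform n) := by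
    apply Real.sInf_nonneg
    rintro t ⟨γ', hγ', rfl⟩
    unfold cost
    exact Finset.sum_nonneg fun σ _ => Finset.sum_nonneg fun τ _ =>
      mul_nonneg (hγ'.1 σ τ) (hamming_nonneg σ τ)
  rw [Real.dist_eq, sub_zero, abs_of_nonneg hge]
  exact hle

end Pool.Agent.Results.MP_492aa6_al.NonsingularWords
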